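import Pool.Agent.Lead.Wc2

set_option autoImplicit false

namespace Pool.Agent.Results.MP_9101e1_lc.Q1
open Pool.Agent.H11.PT Pool.Agent.Lead.Wc

theorem result : NPComplete TwoWC := ⟨wc_np, wc_hard.npHard⟩

end Pool.Agent.Results.MP_9101e1_lc.Q1
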